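import Pool.Agent.Lib_helper52.EPS.Defs

set_option autoImplicit false

namespace Pool.Agent.EPS

open MeasureTheory Set Filter Topology

theorem a1_int {a b m M : ℝ} {f : ℝ → ℝ} (h : Nice a b m M f) (x y : ℝ) :
    IntervalIntegrable f volume x y := by
  have h1 : Integrable f := by
    by_contra hne
    have := integral_undef hne
    rw [h.one] at this
    exact one_ne_zero this
  exact h1.intervalIntegrable

theorem a1_one {a b m M : ℝ} {f : ℝ → ℝ} (h : Nice a b m M f) : ∫ x in a..b, f x = 1 := by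
  rw [intervalIntegral.integral_of_le h.ab.le, ← integral_Icc_eq_integral_Ioc, ← h.one]
  exact setIntegral_eq_integral_of_forall_compl_eq_zero (fun x hx => h.off x hx)

theorem a1_der {a b m M : ℝ} {f : ℝ → ℝ} (h : Nice a b m M f) (y : ℝ) (hy : y ∈ Ioo a b) :
    HasDerivAt (fun y => ∫ x in a..y, f x) (f y) y := by
  have hc : ContinuousAt f y := (h.cont y ⟨hy.1.le, hy.2.le⟩).continuousAt (Icc_mem_nhds hy.1 hy.2)
  refine intervalIntegral.integral_hasDerivAt_right (a1_int h a y) ?_ hc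
  refine ⟨Ioo a b, Ioo_mem_nhds hy.1 hy.2, ?_⟩
  exact (h.cont.mono Ioo_subset_Icc_self).aestronglyMeasurable measurableSet_Ioo

theorem a1_cont {a b m M : ℝ} {f : ℝ → ℝ} (h : Nice a b m M f) :
    Continuous (fun y => ∫ x in a..y, f x) :=
  intervalIntegral.continuous_primitive (a1_int h) a

theorem a1_mono {a b m M : ℝ} {f : ℝ → ℝ} (h : Nice a b m M f) :
    StrictMonoOn (fun y => ∫ x in a..y, f x) (Icc a b) := by
  intro x hx y hy hxy
  have h1 : (∫ t in a..y, f t) - (∫ t in a..x, f t) = ∫ t in x..y, f t :=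
    intervalIntegral.integral_interval_sub_left (a1_int h a y) (a1_int h a x)
  have h2 : ∫ t in x..y, m ≤ ∫ t in x..y, f t := by
    refine intervalIntegral.integral_mono_on hxy.le intervalIntegrable_const (a1_int h x y) ?_
    intro t ht
    exact h.lo t ⟨hx.1.trans ht.1, ht.2.trans hy.2⟩
  rw [intervalIntegral.integral_const, smul_eq_mul] at h2
  have h3 : 0 < (y - x) * m := mul_pos (sub_pos.2 hxy) h.m0
  show (∫ t in a..x, f t) < ∫ t in a..y, f t
  linarith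

/-- the quantile function of a nice density -/
theorem quantile {a b m M : ℝ} {f : ℝ → ℝ} (h : Nice a b m M f) : ∃ S : ℝ → ℝ,
    (∀ p ∈ Ioo (0 : ℝ) 1, S p ∈ Ioo a b) ∧
    (∀ p ∈ Ioo (0 : ℝ) 1, HasDerivAt S (1 / f (S p)) p) ∧
    (∀ y ∈ Ioo a b, ∃ p ∈ Ioo (0 : ℝ) 1, S p = y) := by
  set F : ℝ → ℝ := fun y => ∫ x in a..y, f x with hF
  have hF0 : F a = 0 := by simp [hF]
  have hF1 : F b = 1 := a1_one h
  have hmono : StrictMonoOn F (Icc a b) := a1_mono h
  have ha : a ∈ Icc a b := ⟨le_rfl, h.ab.le⟩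
  have hb : b ∈ Icc a b := ⟨h.ab.le, le_rfl⟩
  have hmem : ∀ y ∈ Ioo a b, F y ∈ Ioo (0 : ℝ) 1 := by
    intro y hy
    have hy' : y ∈ Icc a b := ⟨hy.1.le, hy.2.le⟩
    constructor
    · rw [← hF0]; exact hmono ha hy' hy.1
    · rw [← hF1]; exact hmono hy' hb hy.2
  have hsur : ∀ p ∈ Ioo (0 : ℝ) 1, ∃ y ∈ Ioo a b, F y = p := by
    intro p hp
    have h1 := intermediate_value_Ioo h.ab.le (a1_cont h).continuousOn
    have h2 : p ∈ Ioo (F a) (F b) := by rw [hF0, hF1]; exact hp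
    obtain ⟨y, hy, hyp⟩ := h1 h2
    exact ⟨y, hy, hyp⟩
  classical
  let S : ℝ → ℝ := fun p => if hp : p ∈ Ioo (0 : ℝ) 1 then (hsur p hp).choose else 0
  have hS1 : ∀ p ∈ Ioo (0 : ℝ) 1, S p ∈ Ioo a b := by
    intro p hp
    simp only [S, dif_pos hp]
    exact (hsur p hp).choose_spec.1
  have hS2 : ∀ p ∈ Ioo (0 : ℝ) 1, F (S p) = p := by
    intro p hp
    simp only [S, dif_pos hp]
    exact (hsur p hp).choose_spec.2
  have hS3 : ∀ y ∈ Ioo a b, S (F y) = y := by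
    intro y hy
    have h1 := hS1 _ (hmem y hy)
    have h2 := hS2 _ (hmem y hy)
    exact hmono.injOn ⟨h1.1.le, h1.2.le⟩ ⟨hy.1.le, hy.2.le⟩ h2
  have hSm : StrictMonoOn S (Ioo (0 : ℝ) 1) := by
    intro p hp q hq hpq
    by_contra hle
    rw [not_lt] at hle
    have h1 := hS1 p hp
    have h2 := hS1 q hq
    have h3 := hmono.monotoneOn ⟨h2.1.le, h2.2.le⟩ ⟨h1.1.le, h1.2.le⟩ hle
    rw [hS2 p hp, hS2 q hq] at h3
    exact absurd hpq (not_lt.2 h3)
  have himg : S '' (Ioo (0 : ℝ) 1) = Ioo a b := by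
    ext y
    constructor
    · rintro ⟨p, hp, rfl⟩
      exact hS1 p hp
    · intro hy
      exact ⟨F y, hmem y hy, hS3 y hy⟩
  refine ⟨S, hS1, ?_, fun y hy => ⟨F y, hmem y hy, hS3 y hy⟩⟩
  intro p hp
  have hcont : ContinuousAt S p := by
    refine hSm.continuousAt_of_image_mem_nhds (Ioo_mem_nhds hp.1 hp.2) ?_
    rw [himg]
    exact Ioo_mem_nhds (hS1 p hp).1 (hS1 p hp).2
  have hpos : 0 < f (S p) :=
    lt_of_lt_of_le h.m0 (h.lo _ ⟨(hS1 p hp).1.le, (hS1 p hp).2.le⟩)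
  rw [one_div]
  refine HasDerivAt.of_local_left_inverse hcont (a1_der h (S p) (hS1 p hp)) hpos.ne' ?_
  filter_upwards [Ioo_mem_nhds hp.1 hp.2] with q hq
  exact hS2 q hq

end Pool.Agent.EPS
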