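import Pool.Agent.Lib_helper52.EPS.Defs

set_option autoImplicit false

namespace Pool.Agent.EPS

open MeasureTheory Set Filter Topology

theorem b1_int {f : ℝ → ℝ} (hf : Bdc f) : Integrable f := by
  obtain ⟨K, hK, hK0⟩ := hf.supp
  obtain ⟨M, hM⟩ := hf.bd
  have h1 : IntegrableOn f K := by
    refine Measure.integrableOn_of_bounded (M := M) hK.measure_lt_top.ne
      hf.meas.aestronglyMeasurable ?_
    filter_upwards with x
    rw [Real.norm_eq_abs, abs_of_nonneg (hf.nn x)]
    exact hM x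
  rw [← integrableOn_univ]
  exact h1.of_forall_sdiff_eq_zero MeasurableSet.univ (fun x hx => hK0 x hx.2)

/-- clipped continuous approximations -/
theorem b1_one {f : ℝ → ℝ} (hf : Bdc f) {M : ℝ} (hM : ∀ x, f x ≤ M) (hM0 : 0 ≤ M) (n : ℕ) :
    ∃ g : ℝ → ℝ, Continuous g ∧ (∀ x, 0 ≤ g x) ∧ (∀ x, g x ≤ M) ∧
      eLpNorm (g - f) 1 volume ≤ ((n : ENNReal) + 1)⁻¹ := by
  have h1 : MemLp f 1 volume := memLp_one_iff_integrable.2 (b1_int hf)
  obtain ⟨g, _, hg2, hg3, _⟩ := h1.exists_hasCompactSupport_eLpNorm_sub_le (by simp)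
    (ε := ((n : ENNReal) + 1)⁻¹) (by
      rw [Ne, ENNReal.inv_eq_zero]
      exact ENNReal.add_ne_top.2 ⟨ENNReal.natCast_ne_top n, ENNReal.one_ne_top⟩)
  refine ⟨fun x => max 0 (min M (g x)), by fun_prop, fun x => le_max_left _ _,
    fun x => max_le hM0 (min_le_left _ _), ?_⟩
  refine le_trans (eLpNorm_mono (f := fun x => max 0 (min M (g x)) - f x) (g := f - g) ?_) hg2
  intro x
  rw [Pi.sub_apply, Real.norm_eq_abs, Real.norm_eq_abs]
  have a1 := hf.nn x
  have a2 := hM x
  have e1 : f x = max 0 (min M (f x)) := by rw [min_eq_right a2, max_eq_right a1]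
  calc |max 0 (min M (g x)) - f x| = |max 0 (min M (g x)) - max 0 (min M (f x))| := by
        rw [← e1]
    _ ≤ |min M (g x) - min M (f x)| := abs_max_sub_max_le_abs _ _ _ |>.trans_eq' (by
        rw [max_comm 0, max_comm 0])
    _ ≤ |g x - f x| := by
        have := abs_min_sub_min_le_max M (g x) M (f x)
        rwa [sub_self, abs_zero, max_eq_right (abs_nonneg _)] at this
    _ = |f x - g x| := abs_sub_comm _ _

theorem b1_seq {f : ℝ → ℝ} (hf : Bdc f) {M : ℝ} (hM : ∀ x, f x ≤ M) (hM0 : 0 ≤ M) :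
    ∃ g : ℕ → ℝ → ℝ, (∀ n, Continuous (g n)) ∧ (∀ n x, 0 ≤ g n x) ∧ (∀ n x, g n x ≤ M) ∧
      ∀ᵐ x, Tendsto (fun n => g n x) atTop (𝓝 (f x)) := by
  choose g hg1 hg2 hg3 hg4 using b1_one hf hM hM0
  have h1 : Tendsto (fun n => eLpNorm (g n - f) 1 volume) atTop (𝓝 0) := by
    refine tendsto_of_tendsto_of_tendsto_of_le_of_le tendsto_const_nhds ?_ (fun n => zero_le)
      hg4
    have h2 : Tendsto (fun n : ℕ => ((n + 1 : ℕ) : ENNReal)⁻¹) atTop (𝓝 0) :=
      ENNReal.tendsto_inv_nat_nhds_zero.comp (tendsto_add_atTop_nat 1)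
    refine h2.congr (fun n => ?_)
    push_cast
    rfl
  have h2 : TendstoInMeasure volume g atTop f :=
    tendstoInMeasure_of_tendsto_eLpNorm one_ne_zero
      (fun n => (hg1 n).aestronglyMeasurable) hf.meas.aestronglyMeasurable h1
  obtain ⟨ns, _, hns⟩ := h2.exists_seq_tendsto_ae
  exact ⟨fun n => g (ns n), fun n => hg1 _, fun n x => hg2 _ x, fun n x => hg3 _ x, hns⟩

/-- approximation by nice densities -/
theorem approx {f : ℝ → ℝ} (hf : Bdc f) (h1 : ∫ x, f x = 1) : ∃ (R M : ℝ) (m : ℕ → ℝ)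
    (F : ℕ → ℝ → ℝ), (∀ n, Nice (-R) R (m n) M (F n)) ∧
      ∀ᵐ x, Tendsto (fun n => F n x) atTop (𝓝 (f x)) := by
  obtain ⟨M0, hM0⟩ := hf.bd
  have hM00 : 0 ≤ M0 := (hf.nn 0).trans (hM0 0)
  obtain ⟨K, hK, hK0⟩ := hf.supp
  obtain ⟨R0, hR0⟩ := hK.isBounded.subset_closedBall 0
  set R : ℝ := max R0 1 with hR
  have hRpos : 0 < R := lt_of_lt_of_le one_pos (le_max_right _ _)
  have hsup : ∀ x, x ∉ Icc (-R) R → f x = 0 := by
    intro x hx
    apply hK0
    intro hxK
    have h2 := hR0 hxK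
    rw [Metric.mem_closedBall, dist_zero_right, Real.norm_eq_abs] at h2
    have h3 : |x| ≤ R := h2.trans (le_max_left _ _)
    exact hx (abs_le.1 h3)
  obtain ⟨g, hg1, hg2, hg3, hg4⟩ := b1_seq hf hM0 hM00
  set u : ℕ → ℝ → ℝ := fun n x => g n x + 1 / ((n : ℝ) + 1) with hu
  have hd : ∀ n : ℕ, 0 < 1 / ((n : ℝ) + 1) := fun n => by positivity
  have hd1 : ∀ n : ℕ, 1 / ((n : ℝ) + 1) ≤ 1 := fun n => by
    rw [div_le_one (by positivity)]
    linarith [Nat.cast_nonneg (α := ℝ) n]
  have huc : ∀ n, Continuous (u n) := fun n => (hg1 n).add continuous_const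
  set c : ℕ → ℝ := fun n => ∫ x in (-R)..R, u n x with hc
  have hint1 : ∫ x in (-R)..R, f x = 1 := by
    rw [intervalIntegral.integral_of_le (by linarith), ← integral_Icc_eq_integral_Ioc, ← h1]
    exact setIntegral_eq_integral_of_forall_compl_eq_zero (fun x hx => hsup x hx)
  have hlim : Tendsto c atTop (𝓝 1) := by
    rw [← hint1]
    refine intervalIntegral.tendsto_integral_filter_of_dominated_convergence (fun _ => M0 + 1)
      ?_ ?_ ?_ ?_
    · filter_upwards with n
      exact (huc n).aestronglyMeasurable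
    · filter_upwards with n
      filter_upwards with x _
      rw [Real.norm_eq_abs, abs_of_nonneg (add_nonneg (hg2 n x) (hd n).le)]
      exact add_le_add (hg3 n x) (hd1 n)
    · exact intervalIntegrable_const
    · filter_upwards [hg4] with x hx _
      have h3 := hx.add tendsto_one_div_add_atTop_nhds_zero_nat
      rw [add_zero] at h3
      exact h3
  have hev : ∀ᶠ n in atTop, 1 / 2 < c n := hlim.eventually (lt_mem_nhds (by norm_num))
  obtain ⟨n0, hn0⟩ := eventually_atTop.1 hev
  refine ⟨R, 2 * (M0 + 1), fun n => 1 / (((n + n0 : ℕ) : ℝ) + 1) / c (n + n0),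
    fun n => indicator (Icc (-R) R) (fun x => u (n + n0) x / c (n + n0)), ?_, ?_⟩
  · intro n
    have hcn : 1 / 2 < c (n + n0) := hn0 _ (Nat.le_add_left _ _)
    have hcp : 0 < c (n + n0) := by linarith
    refine ⟨by linarith, div_pos (hd _) hcp, ?_, ?_, ?_, ?_, ?_⟩
    · refine ContinuousOn.congr (f := fun x => u (n + n0) x / c (n + n0))
        ((huc _).div_const _).continuousOn ?_
      intro x hx
      exact indicator_of_mem hx _
    · intro x hx
      show 1 / (((n + n0 : ℕ) : ℝ) + 1) / c (n + n0) ≤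
        indicator (Icc (-R) R) (fun x => u (n + n0) x / c (n + n0)) x
      rw [indicator_of_mem hx]
      have : 1 / (((n + n0 : ℕ) : ℝ) + 1) ≤ u (n + n0) x := by
        simp only [hu]
        linarith [hg2 (n + n0) x]
      exact div_le_div_of_nonneg_right this hcp.le
    · intro x hx
      show indicator (Icc (-R) R) (fun x => u (n + n0) x / c (n + n0)) x ≤ 2 * (M0 + 1)
      rw [indicator_of_mem hx, div_le_iff₀ hcp]
      have h3 : u (n + n0) x ≤ M0 + 1 := add_le_add (hg3 _ x) (hd1 _)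
      nlinarith
    · intro x hx
      exact indicator_of_notMem hx _
    · rw [integral_indicator measurableSet_Icc, integral_Icc_eq_integral_Ioc,
        ← intervalIntegral.integral_of_le (by linarith), intervalIntegral.integral_div]
      exact div_self hcp.ne'
  · filter_upwards [hg4] with x hx
    by_cases hxR : x ∈ Icc (-R) R
    · have h3 := hx.add tendsto_one_div_add_atTop_nhds_zero_nat
      rw [add_zero] at h3
      have h4 : Tendsto (fun n => u n x / c n) atTop (𝓝 (f x / 1)) :=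
        Tendsto.div h3 hlim one_ne_zero
      rw [div_one] at h4
      have h5 := h4.comp (tendsto_add_atTop_nat n0)
      refine h5.congr (fun n => ?_)
      rw [indicator_of_mem hxR]
      rfl
    · rw [hsup x hxR]
      refine tendsto_const_nhds.congr (fun n => ?_)
      rw [indicator_of_notMem hxR]

end Pool.Agent.EPS
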