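import Pool.Agent.Lib_helper52.EPS.Defs
import Pool.Agent.Lib_helper73.EPS.C0
set_option autoImplicit false

namespace Pool.Agent.EPS

open MeasureTheory Set Filter Topology

variable {G : Type*} [MeasureSpace G] [TopologicalSpace G] [AddCommGroup G]
  [IsTopologicalAddGroup G] [BorelSpace G] [SecondCountableTopology G] [LocallyCompactSpace G]
  [T2Space G] [(volume : Measure G).IsAddHaarMeasure]
variable {H : Type*} [MeasureSpace H] [TopologicalSpace H] [AddCommGroup H]
  [IsTopologicalAddGroup H] [BorelSpace H] [SecondCountableTopology H] [LocallyCompactSpace H]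
  [T2Space H] [(volume : Measure H).IsAddHaarMeasure]

theorem bdc_slice {u : G × H → ℝ} (hu : Bdc u) (x : G) : Bdc (fun y => u (x, y)) := by
  obtain ⟨M, hM⟩ := hu.bd
  obtain ⟨K, hK, hK0⟩ := hu.supp
  refine ⟨hu.meas.comp measurable_prodMk_left, fun y => hu.nn _, ⟨M, fun y => hM _⟩,
    ⟨Prod.snd '' K, hK.image continuous_snd, ?_⟩⟩
  intro y hy
  apply hK0
  intro h
  exact hy ⟨(x, y), h, rfl⟩

theorem c1_int {u : G × H → ℝ} (hu : Bdc u) :
    Integrable u ((volume : Measure G).prod (volume : Measure H)) := by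
  rw [← Measure.volume_eq_prod]
  exact bdc_int hu

theorem bdc_marg {u : G × H → ℝ} (hu : Bdc u) : Bdc (fun x => ∫ y, u (x, y)) := by
  obtain ⟨M, hM⟩ := hu.bd
  obtain ⟨K, hK, hK0⟩ := hu.supp
  have hM0 : 0 ≤ M := (hu.nn 0).trans (hM 0)
  refine ⟨?_, fun x => integral_nonneg (fun y => hu.nn _), ?_, ?_⟩
  · exact (StronglyMeasurable.integral_prod_right (f := fun (x : G) (y : H) => u (x, y))
      (ν := (volume : Measure H)) hu.meas.stronglyMeasurable).measurable
  · have hK2 : IsCompact (Prod.snd '' K) := hK.image continuous_snd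
    refine ⟨M * (volume : Measure H).real (Prod.snd '' K), fun x => ?_⟩
    have e : ∫ y, u (x, y) = ∫ y in Prod.snd '' K, u (x, y) := by
      symm
      apply setIntegral_eq_integral_of_forall_compl_eq_zero
      intro y hy
      apply hK0
      intro h
      exact hy ⟨(x, y), h, rfl⟩
    show ∫ y, u (x, y) ≤ _
    rw [e]
    have h1 : ‖∫ y in Prod.snd '' K, u (x, y)‖ ≤ M * (volume : Measure H).real (Prod.snd '' K) := by
      refine norm_setIntegral_le_of_norm_le_const hK2.measure_lt_top ?_
      intro y _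
      rw [Real.norm_eq_abs, abs_of_nonneg (hu.nn _)]
      exact hM _
    exact (le_abs_self _).trans h1
  · refine ⟨Prod.fst '' K, hK.image continuous_fst, ?_⟩
    intro x hx
    have : ∀ y, u (x, y) = 0 := by
      intro y
      apply hK0
      intro h
      exact hx ⟨(x, y), h, rfl⟩
    simp only [this, integral_zero]

theorem marg_mass {u : G × H → ℝ} (hu : Bdc u) : ∫ x, (∫ y, u (x, y)) = ∫ p, u p := by
  rw [Measure.volume_eq_prod, integral_prod _ (c1_int hu)]

/-- chain rule -/
theorem chain {u : G × H → ℝ} (hu : Bdc u) :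
    Integrable (fun x => KK (fun y => u (x, y))) ∧
      KK u = KK (fun x => ∫ y, u (x, y)) + ∫ x, KK (fun y => u (x, y)) := by
  have h1 : Integrable (fun p => Real.negMulLog (u p))
      ((volume : Measure G).prod (volume : Measure H)) := by
    rw [← Measure.volume_eq_prod]
    exact bdc_ent hu
  have h2 : Integrable (fun x => ∫ y, Real.negMulLog (u (x, y))) (volume : Measure G) :=
    h1.integral_prod_left
  have h3 : Integrable (fun x => Real.negMulLog (∫ y, u (x, y))) (volume : Measure G) :=
    bdc_ent (bdc_marg hu)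
  have h4 : ∫ p, Real.negMulLog (u p) = ∫ x, ∫ y, Real.negMulLog (u (x, y)) := by
    rw [Measure.volume_eq_prod, integral_prod _ h1]
  have e : (fun x => KK (fun y => u (x, y))) =
      fun x => (∫ y, Real.negMulLog (u (x, y))) - Real.negMulLog (∫ y, u (x, y)) := rfl
  refine ⟨?_, ?_⟩
  · rw [e]; exact h2.sub h3
  · rw [e, integral_sub h2 h3]
    unfold KK
    rw [h4, marg_mass hu]
    ring

end Pool.Agent.EPS
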