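import Pool.Agent.Lib_helper52.EPS.Defs

set_option autoImplicit false

namespace Pool.Agent.EPS

open MeasureTheory Set Filter Topology

theorem g4_key {k : ℕ} (hk : 1 ≤ k) {δ : ℝ} (h0 : 0 < δ) (h1 : δ < 1)
    (hl : 1 ≤ ((k : ℝ) + 1) * δ) (hu : (k : ℝ) * δ ≤ 1) :
    Real.exp (-1) ≤ (k : ℝ) * δ * (1 - δ) ^ (k - 1) := by
  have hk0 : (0 : ℝ) < k := by exact_mod_cast hk
  have hs : 0 < (k : ℝ) * δ := mul_pos hk0 h0
  have hd : 0 < 1 - δ := by linarith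
  have a1 := Real.one_sub_inv_le_log_of_pos hs
  have a2 := Real.one_sub_inv_le_log_of_pos hd
  have hpos : 0 < (k : ℝ) * δ * (1 - δ) ^ (k - 1) := mul_pos hs (pow_pos hd _)
  rw [← Real.le_log_iff_exp_le hpos, Real.log_mul hs.ne' (pow_pos hd _).ne', Real.log_pow,
    Nat.cast_sub hk, Nat.cast_one]
  have hk1 : (0 : ℝ) ≤ (k : ℝ) - 1 := by
    have : (1 : ℝ) ≤ k := by exact_mod_cast hk
    linarith
  have a3 := mul_le_mul_of_nonneg_left a2 hk1
  have a4 : 0 ≤ 2 - ((k : ℝ) * δ)⁻¹ + ((k : ℝ) - 1) * (1 - (1 - δ)⁻¹) := by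
    have e : 2 - ((k : ℝ) * δ)⁻¹ + ((k : ℝ) - 1) * (1 - (1 - δ)⁻¹)
        = ((1 - (k : ℝ) * δ) * (((k : ℝ) + 1) * δ - 1)) / ((k : ℝ) * δ * (1 - δ)) := by
      have h3 : (k : ℝ) ≠ 0 := hk0.ne'
      have h4 : δ ≠ 0 := h0.ne'
      have h5 : (1 - δ) ≠ 0 := hd.ne'
      field_simp
      ring
    rw [e]
    exact div_nonneg (mul_nonneg (by linarith) (by linarith)) (mul_pos hs hd).le
  linarith

/-- optimisation over `k` -/
theorem opt_k (a b S : ℝ) (ha : 0 < a) (hb : 0 < b) (hS : 0 < S)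
    (h : ∀ k : ℕ, 1 ≤ k → (k : ℝ) * a * b ^ (k - 1) ≤ S ^ k) (hbS : b ≤ S) :
    Real.exp (-1) * a + b ≤ S := by
  set δ : ℝ := 1 - b / S with hδ
  have hb' : b = S * (1 - δ) := by
    rw [hδ]; field_simp; ring
  have h1 : δ < 1 := by
    have : 0 < b / S := div_pos hb hS
    linarith
  have h2 : ∀ k : ℕ, 1 ≤ k → (k : ℝ) * a * (1 - δ) ^ (k - 1) ≤ S := by
    intro k hk
    have h3 := h k hk
    have h4 : S ^ k = S * S ^ (k - 1) := by
      rw [← pow_succ', Nat.sub_add_cancel hk]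
    rw [hb', mul_pow, h4] at h3
    have h5 : 0 < S ^ (k - 1) := pow_pos hS _
    have h6 : ((k : ℝ) * a * (1 - δ) ^ (k - 1)) * S ^ (k - 1) ≤ S * S ^ (k - 1) := by
      calc _ = (k : ℝ) * a * (S ^ (k - 1) * (1 - δ) ^ (k - 1)) := by ring
        _ ≤ _ := h3
    exact le_of_mul_le_mul_right h6 h5
  have h0 : 0 < δ := by
    rcases lt_or_eq_of_le (show 0 ≤ δ by
      have : b / S ≤ 1 := (div_le_one hS).2 hbS
      linarith) with hlt | heq
    · exact hlt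
    · exfalso
      obtain ⟨k, hk⟩ := exists_nat_gt (S / a)
      have h3 := h2 (k + 1) (by omega)
      rw [← heq, sub_zero, one_pow, mul_one] at h3
      rw [div_lt_iff₀ ha] at hk
      push_cast at h3
      nlinarith
  set k : ℕ := ⌊1 / δ⌋₊ with hkd
  have hinv : 1 ≤ 1 / δ := by rw [le_div_iff₀ h0]; linarith
  have hk1 : 1 ≤ k := Nat.le_floor (by simpa using hinv)
  have hku : (k : ℝ) * δ ≤ 1 := by
    have := Nat.floor_le (show 0 ≤ 1 / δ by positivity)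
    rwa [le_div_iff₀ h0] at this
  have hkl : 1 ≤ ((k : ℝ) + 1) * δ := by
    have := (Nat.lt_floor_add_one (1 / δ)).le
    rwa [div_le_iff₀ h0] at this
  have key := g4_key hk1 h0 h1 hkl hku
  have h3 := mul_le_mul_of_nonneg_right key ha.le
  have h4 := mul_le_mul_of_nonneg_left (h2 k hk1) h0.le
  have h5 : (k : ℝ) * δ * (1 - δ) ^ (k - 1) * a = δ * ((k : ℝ) * a * (1 - δ) ^ (k - 1)) := by ring
  have h6 : S - b = δ * S := by rw [hb']; ring
  linarith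

end Pool.Agent.EPS
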